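import Mathlib
import Pool.Agent.Helper11.Can.Coh
import Pool.Agent.Helper11.CanTypes

/-!
# CAN-C7: tensors over `K` give tensors over `Ω` (MP_5f0950_ag)
-/

universe u v w t

open CategoryTheory Finset

namespace Pool.Agent.Helper11.Can

open Pool.Agent.Helper10 hiding IsAlgAut parityPart
open SmProjVar SPre Pool.Agent.Helper10.GIT Pool.Agent.Helper11.Iso

section weil

variable {k : Type u} [Field k] {K : Type v} [Field K] [CharZero K]
  (W : WeilCohomology.{u, v, w} k K) {P : ℕ} {d : Fin P → ℕ} {V : Fin P → SmProjVar k}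
  (e : ∀ c, Fin (d c) → W.H (V c)) (𝒳 : SmProjVar k → Prop) (Ω : Type t) [Field Ω] [Algebra K Ω]

theorem one_list_prod {X : SmProjVar k} (L : List (W.H X)) :
    Obs.one W Ω L.prod = (L.map (Obs.one W Ω)).prod := by
  induction L with
  | nil => rfl
  | cons a L ih => rw [List.prod_cons, Obs.one_mul, ih, List.map_cons, List.prod_cons]

theorem wd_oneF {χ : Shape P} {T : SmProjVar k}
    (f : ∀ i : Fin χ.1, T.toOver ⟶ (V (χ.2 i)).toOver) (w : Word d χ) :
    wd (W.toSPre Ω) (oneF W e Ω) f w = Obs.one W Ω (kwd W e f w) := by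
  unfold kwd wd
  rw [one_list_prod, List.map_ofFn]
  congr 2

theorem ctens_oneF {χ : Shape P} {T X : SmProjVar k} (p : T.toOver ⟶ X.toOver)
    (f : ∀ i : Fin χ.1, T.toOver ⟶ (V (χ.2 i)).toOver) (r : W.H T) (x : W.H X) :
    ctens (W.toSPre Ω) (oneF W e Ω) p f (Obs.one W Ω r) (Obs.one W Ω x) =
      fun w => algebraMap K Ω (kten W e p f r x w) := by
  funext w
  unfold ctens kten
  rw [wd_oneF, Obs.pull_one, ← Obs.one_mul, Obs.tr_one_mul]
  rfl

/-- CAN-C7: tensors over `K` give tensors over `Ω` (`Obs.one_mul`, `Obs.pull_one`, `Obs.tr_one_mul`,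
`Obs.one_mem_alg` in Helper11/ObsThm.lean; `Obs.bc_induction` for the orthogonality to the span of
the algebraic classes) -/
theorem ext_kA_subset (χ : Shape P) :
    ext Ω (kA W e 𝒳) χ ⊆ famA (W.toSPre Ω) (oneF W e Ω) 𝒳 χ := by
  rintro z ⟨y, ⟨T, X, p, f, r, x, hX, hr, rfl⟩, rfl⟩
  exact ⟨T, X, p, f, Obs.one W Ω r, Obs.one W Ω x, hX, Obs.one_mem_alg W Ω hr,
    (ctens_oneF W e Ω p f r x).symm⟩

/-- CAN-C7, second part -/
theorem ext_kN_subset (χ : Shape P) :
    ext Ω (kN W e 𝒳) χ ⊆ famN (W.toSPre Ω) (oneF W e Ω) 𝒳 χ := by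
  rintro z ⟨y, ⟨T, X, p, f, r, x, hX, hr, hr', rfl⟩, rfl⟩
  refine ⟨T, X, p, f, Obs.one W Ω r, Obs.one W Ω x, hX, ⟨Obs.one_mem_alg W Ω hr, ?_⟩,
    (ctens_oneF W e Ω p f r x).symm⟩
  intro a ha
  refine Obs.bc_induction W Ω (S := W.algClasses T)
    (p := fun a => (W.toSPre Ω).tr T (Obs.one W Ω r * a) = 0) (fun y hy => ?_) ?_ ?_ ?_ ha
  · rw [Obs.tr_one_mul]
    have h1 : W.pairing T r y = 0 := hr' y hy
    rw [h1, map_zero]
  · rw [mul_zero, map_zero]
  · intro x y hx hy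
    rw [mul_add, map_add, hx, hy, add_zero]
  · intro c x hx
    rw [mul_smul_comm, map_smul, hx, smul_zero]

end weil

end Pool.Agent.Helper11.Can
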